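import Pool.Agent.helper70.Oct.Chk

set_option autoImplicit false

/-!
# OCT-J6: composition of a table with a chart
-/

open MvPolynomial Set

namespace Oct

theorem evP_nil6 (x : ℝ) : evP [] x = 0 := rfl
theorem evP_cons6 (c : ℤ) (l : List ℤ) (x : ℝ) : evP (c :: l) x = (c : ℝ) + x * evP l x := rfl
theorem evT_nil6 (t u : ℝ) : evT [] t u = 0 := rfl
theorem evT_cons6 (l : List ℤ) (G : List (List ℤ)) (t u : ℝ) :
    evT (l :: G) t u = evP l t + u * evT G t u := rfl

theorem evP_addP6 (p : List ℤ) : ∀ (q : List ℤ) (x : ℝ),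
    evP (addP p q) x = evP p x + evP q x := by
  induction p with
  | nil => intro q x; simp [addP, evP_nil6]
  | cons a p ih =>
    intro q x
    cases q with
    | nil => simp [addP, evP_nil6]
    | cons b q =>
      rw [addP, evP_cons6, evP_cons6, evP_cons6, ih]
      push_cast
      ring

theorem evP_smulP6 (k : ℤ) (p : List ℤ) (x : ℝ) : evP (smulP k p) x = (k : ℝ) * evP p x := by
  induction p with
  | nil => simp [smulP, evP_nil6]
  | cons a p ih =>
    have h : smulP k (a :: p) = (k * a) :: smulP k p := rfl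
    rw [h, evP_cons6, evP_cons6, ih]
    push_cast
    ring

theorem evP_mulP6 (p q : List ℤ) (x : ℝ) : evP (mulP p q) x = evP p x * evP q x := by
  induction p with
  | nil => simp [mulP, evP_nil6]
  | cons a p ih =>
    rw [mulP, evP_addP6, evP_smulP6, evP_cons6, evP_cons6, ih]
    push_cast
    ring

theorem evT_addT6 (p : List (List ℤ)) : ∀ (q : List (List ℤ)) (t u : ℝ),
    evT (addT p q) t u = evT p t u + evT q t u := by
  induction p with
  | nil => intro q t u; simp [addT, evT_nil6]
  | cons a p ih =>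
    intro q t u
    cases q with
    | nil => simp [addT, evT_nil6]
    | cons b q =>
      rw [addT, evT_cons6, evT_cons6, evT_cons6, ih, evP_addP6]
      ring

theorem evT_mulPT6 (p : List ℤ) (G : List (List ℤ)) (t u : ℝ) :
    evT (mulPT p G) t u = evP p t * evT G t u := by
  induction G with
  | nil => simp [mulPT, evT_nil6]
  | cons a G ih =>
    have h : mulPT p (a :: G) = mulP p a :: mulPT p G := rfl
    rw [h, evT_cons6, evT_cons6, ih, evP_mulP6]
    ring

theorem evT_smul6 (k : ℤ) (G : List (List ℤ)) (t u : ℝ) :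
    evT (G.map (smulP k)) t u = (k : ℝ) * evT G t u := by
  induction G with
  | nil => simp [evT_nil6]
  | cons a G ih =>
    rw [List.map_cons, evT_cons6, evT_cons6, ih, evP_smulP6]
    ring

theorem evT_mulZ6 (al : ℤ) (be : List ℤ) (G : List (List ℤ)) (t u : ℝ) :
    evT (mulZ al be G) t u = ((al : ℝ) * u + evP be t) * evT G t u := by
  rw [mulZ, evT_addT6, evT_mulPT6, evT_cons6, evT_smul6, evP_nil6]
  ring

/-- the list of tables describes `[zᵈ, ..., z, 1]` -/
def PowL6 (t u z : ℝ) : ℕ → List (List (List ℤ)) → Prop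
  | 0, L => ∃ T, L = [T] ∧ evT T t u = 1
  | d + 1, L => ∃ T L', L = T :: L' ∧ evT T t u = z ^ (d + 1) ∧ PowL6 t u z d L'

theorem powL_zpows6 (al : ℤ) (be : List ℤ) (t u : ℝ) (d : ℕ) :
    PowL6 t u ((al : ℝ) * u + evP be t) d (zpows al be d) := by
  induction d with
  | zero =>
    refine ⟨[[1]], rfl, ?_⟩
    simp [evT_cons6, evT_nil6, evP_cons6, evP_nil6]
  | succ d ih =>
    have key : ∃ Z l, zpows al be d = Z :: l ∧
        evT Z t u = ((al : ℝ) * u + evP be t) ^ d := by
      cases d with
      | zero =>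
        obtain ⟨T, hT, h1⟩ := ih
        exact ⟨T, [], hT, by rw [h1, pow_zero]⟩
      | succ d =>
        obtain ⟨T, L, hT, h1, _⟩ := ih
        exact ⟨T, L, hT, h1⟩
    obtain ⟨Z, l, hZ, hz⟩ := key
    refine ⟨mulZ al be Z, Z :: l, ?_, ?_, ?_⟩
    · rw [zpows, hZ]
    · rw [evT_mulZ6, hz, pow_succ]
      ring
    · rw [← hZ]
      exact ih

theorem compY_nil6 (y : List ℤ) (L : List (List (List ℤ))) : compY y [] L = [] := by
  cases L <;> rfl

theorem compX_nil6 (x y : List ℤ) (L : List (List (List ℤ))) : compX x y [] L = [] := by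
  cases L <;> rfl

theorem evT_compY6 (y : List ℤ) (t u z : ℝ) (d : ℕ) : ∀ (row : List ℤ)
    (L : List (List (List ℤ))), row.length = d + 1 → PowL6 t u z d L →
    evT (compY y row L) t u =
      ∑ j ∈ Finset.range (d + 1), ((row.getD j 0 : ℤ) : ℝ) * evP y t ^ j * z ^ (d - j) := by
  induction d with
  | zero =>
    intro row L hr hL
    obtain ⟨T, rfl, hT⟩ := hL
    match row, hr with
    | [c], _ =>
      rw [compY, evT_addT6, evT_smul6, evT_mulPT6, compY_nil6, evT_nil6, hT]
      simp
  | succ d ih =>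
    intro row L hr hL
    obtain ⟨T, L', rfl, hT, hL'⟩ := hL
    match row, hr with
    | c :: row, hr =>
      have hr' : row.length = d + 1 := by simpa using hr
      rw [compY, evT_addT6, evT_smul6, evT_mulPT6, hT, ih row L' hr' hL',
        Finset.sum_range_succ' _ (d + 1), Finset.mul_sum]
      rw [add_comm]
      congr 1
      · refine Finset.sum_congr rfl fun j _ => ?_
        rw [List.getD_cons_succ, Nat.add_sub_add_right]
        ring
      · simp

theorem tabOK_cons6 {d : ℕ} {row : List ℤ} {tab : List (List ℤ)}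
    (h1 : (row :: tab).length = d + 1 + 1)
    (h2 : ∀ i ≤ d + 1, ((row :: tab).getD i []).length = d + 1 + 1 - i) :
    row.length = d + 1 + 1 ∧ tab.length = d + 1 ∧ ∀ i ≤ d, (tab.getD i []).length = d + 1 - i := by
  refine ⟨by simpa using h2 0 (Nat.zero_le _), by simpa using h1, fun i hi => ?_⟩
  have := h2 (i + 1) (by omega)
  rw [List.getD_cons_succ] at this
  omega

theorem evT_compX6 (x y : List ℤ) (t u z : ℝ) (d : ℕ) : ∀ (tab : List (List ℤ))
    (L : List (List (List ℤ))), tab.length = d + 1 →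
    (∀ i ≤ d, (tab.getD i []).length = d + 1 - i) → PowL6 t u z d L →
    evT (compX x y tab L) t u =
      ∑ i ∈ Finset.range (d + 1), ∑ j ∈ Finset.range (d + 1 - i),
        (((tab.getD i []).getD j 0 : ℤ) : ℝ) * evP x t ^ i * evP y t ^ j * z ^ (d - i - j) := by
  induction d with
  | zero =>
    intro tab L hr hl hL
    obtain ⟨T, rfl, hT⟩ := hL
    match tab, hr, hl with
    | [row], _, hl =>
      have hrow : row.length = 0 + 1 := by simpa using hl 0 le_rfl
      rw [compX, evT_addT6, evT_mulPT6, compX_nil6, evT_nil6,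
        evT_compY6 y t u z 0 row [T] hrow ⟨T, rfl, hT⟩]
      simp
  | succ d ih =>
    intro tab L hr hl hL
    have hL0 := hL
    obtain ⟨T, L', rfl, hT, hL'⟩ := hL
    match tab, hr, hl with
    | row :: tab, hr, hl =>
      obtain ⟨hrow, hlen, hrest⟩ := tabOK_cons6 hr hl
      rw [Finset.sum_range_succ' _ (d + 1), compX, evT_addT6, evT_mulPT6,
        evT_compY6 y t u z (d + 1) row (T :: L') hrow hL0,
        ih tab L' hlen hrest hL', Finset.mul_sum, add_comm]
      congr 1
      · refine Finset.sum_congr rfl fun i _ => ?_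
        rw [Finset.mul_sum, List.getD_cons_succ, Nat.add_sub_add_right]
        refine Finset.sum_congr rfl fun j _ => ?_
        rw [Nat.add_sub_add_right]
        ring
      · simp

/-- sizes: `d + 1` rows, row `i` of length `d + 1 - i` -/
def tabOK (d : ℕ) (tab : List (List ℤ)) : Prop :=
  tab.length = d + 1 ∧ ∀ i ≤ d, (tab.getD i []).length = d + 1 - i

theorem polyOf_homog (d : ℕ) (tab : List (List ℤ)) : (polyOf d tab).IsHomogeneous d := by
  unfold polyOf
  refine IsHomogeneous.sum _ _ _ fun i hi => IsHomogeneous.sum _ _ _ fun j hj => ?_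
  have hi' := Finset.mem_range.1 hi
  have hj' := Finset.mem_range.1 hj
  have h := (((isHomogeneous_C (Fin 3) (((tab.getD i []).getD j 0 : ℤ) : ℝ)).mul
    (isHomogeneous_X_pow (R := ℝ) (0 : Fin 3) i)).mul
    (isHomogeneous_X_pow (R := ℝ) (1 : Fin 3) j)).mul
    (isHomogeneous_X_pow (R := ℝ) (2 : Fin 3) (d - i - j))
  have e : 0 + i + j + (d - i - j) = d := by omega
  rw [e] at h
  exact h

theorem evP_beL6 (ch : Chart) (t : ℝ) : evP (beL ch) t = ch.be t := by
  unfold beL Chart.be
  split_ifs with h2 h1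
  · simp [evP_cons6, evP_nil6, h2, h1]
  · simp only [evP_cons6, evP_nil6, h2]
    push_cast
    ring
  · simp only [evP_cons6, evP_nil6]
    ring

theorem compC_sound {d : ℕ} {tab : List (List ℤ)} (htab : tabOK d tab) (ch : Chart) (t u : ℝ) :
    eval (ch.pt t u) (polyOf d tab) = evT (compC d ch tab) t u := by
  obtain ⟨h1, h2⟩ := htab
  have hx : evP [ch.x0, ch.x1] t = ch.vx t := by
    simp only [evP_cons6, evP_nil6, Chart.vx]
    ring
  have hy : evP [ch.y0, ch.y1] t = ch.vy t := by
    simp only [evP_cons6, evP_nil6, Chart.vy]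
    ring
  rw [compC, evT_compX6 _ _ t u _ d tab _ h1 h2 (powL_zpows6 ch.al (beL ch) t u d), hx, hy,
    evP_beL6]
  simp only [polyOf, map_sum, map_mul, map_pow, eval_C, eval_X, Chart.pt, Matrix.cons_val_zero,
    Matrix.cons_val_one, Matrix.cons_val]

theorem eval_pole {d : ℕ} {tab : List (List ℤ)} :
    eval ![0, 0, 1] (polyOf d tab) = (((tab.getD 0 []).getD 0 0 : ℤ) : ℝ) := by
  simp only [polyOf, map_sum, map_mul, map_pow, eval_C, eval_X, Matrix.cons_val_zero,
    Matrix.cons_val_one, Matrix.cons_val]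
  rw [Finset.sum_range_succ', Finset.sum_eq_zero, zero_add]
  · rw [Nat.sub_zero, Finset.sum_range_succ', Finset.sum_eq_zero, zero_add]
    · simp
    · intro j _
      simp
  · intro i _
    refine Finset.sum_eq_zero fun j _ => ?_
    simp

end Oct
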